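import Mathlib
import Pool.Agent.Lib.MP_ac15a8_mp.Final

/-!
# MP_ac15a8_mp: monogamy of the negativity for tripartite pure states (He and Vidal)

For every vector `ψ` of a tensor product `ℂ^A ⊗ ℂ^B ⊗ ℂ^C` of finite-dimensional spaces, with
`ρ = |ψ⟩⟨ψ|` and `ρ^Γ` its partial transpose with respect to `A`,
`N(Tr_C ρ^Γ)^2 + N(Tr_B ρ^Γ)^2 ≤ N(ρ^Γ)^2`.
-/

set_option autoImplicit false

namespace Pool.Agent.Results.MP_ac15a8_mp.NegativityMonogamy

open Matrix

variable {A B C n : Type*}

/-- The operator `|ψ⟩⟨ψ|`: its entry at `x`, `y` is `ψ x` times the conjugate of `ψ y`. -/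
def ketBra (ψ : A × B × C → ℂ) : Matrix (A × B × C) (A × B × C) ℂ :=
  Matrix.of fun x y => ψ x * star (ψ y)

/-- The partial transpose with respect to the first factor:
`⟨i j k| ρ^Γ |i' j' k'⟩ = ⟨i' j k| ρ |i j' k'⟩`. -/
def partialTranspose (ρ : Matrix (A × B × C) (A × B × C) ℂ) :
    Matrix (A × B × C) (A × B × C) ℂ :=
  Matrix.of fun x y => ρ (y.1, x.2.1, x.2.2) (x.1, y.2.1, y.2.2)

/-- The partial trace over the second factor:
`⟨i k| Tr_B ρ |i' k'⟩ = ∑ j, ⟨i j k| ρ |i' j k'⟩`. -/
def traceB [Fintype B] (ρ : Matrix (A × B × C) (A × B × C) ℂ) : Matrix (A × C) (A × C) ℂ :=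
  Matrix.of fun x y => ∑ j : B, ρ (x.1, j, x.2) (y.1, j, y.2)

/-- The partial trace over the third factor:
`⟨i j| Tr_C ρ |i' j'⟩ = ∑ k, ⟨i j k| ρ |i' j' k⟩`. -/
def traceC [Fintype C] (ρ : Matrix (A × B × C) (A × B × C) ℂ) : Matrix (A × B) (A × B) ℂ :=
  Matrix.of fun x y => ∑ k : C, ρ (x.1, x.2, k) (y.1, y.2, k)

/-- The sum of the absolute values of the eigenvalues of `X`, that is, of the complex roots of the
characteristic polynomial, counted with multiplicity.  This is the trace norm if `X` is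
Hermitian. -/
noncomputable def sumAbsEigenvalues [Fintype n] [DecidableEq n] (X : Matrix n n ℂ) : ℝ :=
  (X.charpoly.roots.map fun z : ℂ => ‖z‖).sum

/-- The negativity function `N(X) = ‖X‖_1 - Tr X` of a Hermitian matrix `X`. -/
noncomputable def negativity [Fintype n] [DecidableEq n] (X : Matrix n n ℂ) : ℝ :=
  sumAbsEigenvalues X - X.trace.re

theorem sum_abs_eq [Fintype n] [DecidableEq n] {X : Matrix n n ℂ} (hX : X.IsHermitian) :
    sumAbsEigenvalues X = ∑ i, |hX.eigenvalues i| := by
  unfold sumAbsEigenvalues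
  rw [hX.roots_charpoly_eq_eigenvalues, Multiset.map_map]
  refine congrArg Multiset.sum (Multiset.map_congr rfl ?_)
  intro i _
  simp only [Function.comp_apply]
  exact RCLike.norm_ofReal _

theorem negativity_eq [Fintype n] [DecidableEq n] {X : Matrix n n ℂ} (hX : X.IsHermitian) :
    negativity X = ∑ i, (|hX.eigenvalues i| - hX.eigenvalues i) := by
  have h2 : X.trace.re = ∑ i, hX.eigenvalues i := by
    rw [hX.trace_eq_sum_eigenvalues, Complex.re_sum]
    rfl
  unfold negativity
  rw [sum_abs_eq hX, h2, Finset.sum_sub_distrib]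

theorem pt_hermitian (ψ : A × B × C → ℂ) : (partialTranspose (ketBra ψ)).IsHermitian := by
  ext x y
  simp only [Matrix.conjTranspose_apply, partialTranspose, ketBra, Matrix.of_apply, star_mul',
    star_star]
  exact mul_comm _ _

theorem traceB_hermitian [Fintype B] (ψ : A × B × C → ℂ) :
    (traceB (partialTranspose (ketBra ψ))).IsHermitian := by
  ext x y
  simp only [Matrix.conjTranspose_apply, traceB, partialTranspose, ketBra, Matrix.of_apply,
    star_sum, star_mul', star_star]
  exact Finset.sum_congr rfl fun j _ => mul_comm _ _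

theorem traceC_hermitian [Fintype C] (ψ : A × B × C → ℂ) :
    (traceC (partialTranspose (ketBra ψ))).IsHermitian := by
  ext x y
  simp only [Matrix.conjTranspose_apply, traceC, partialTranspose, ketBra, Matrix.of_apply,
    star_sum, star_mul', star_star]
  exact Finset.sum_congr rfl fun j _ => mul_comm _ _

/-- **Monogamy of the negativity.**  For all finite dimensions and every vector `ψ` of
`ℂ^A ⊗ ℂ^B ⊗ ℂ^C` (a unit vector or not), with `ρ = |ψ⟩⟨ψ|`, the three matrices `ρ^Γ`,
`Tr_B ρ^Γ`, `Tr_C ρ^Γ` are Hermitian and `N(Tr_B ρ^Γ)^2 + N(Tr_C ρ^Γ)^2 ≤ N(ρ^Γ)^2`. -/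
theorem result {A B C : Type*} [Fintype A] [Fintype B] [Fintype C] [DecidableEq A]
    [DecidableEq B] [DecidableEq C] (ψ : A × B × C → ℂ) :
    (partialTranspose (ketBra ψ)).IsHermitian ∧
      (traceB (partialTranspose (ketBra ψ))).IsHermitian ∧
      (traceC (partialTranspose (ketBra ψ))).IsHermitian ∧
      negativity (traceB (partialTranspose (ketBra ψ))) ^ 2 +
        negativity (traceC (partialTranspose (ketBra ψ))) ^ 2 ≤
      negativity (partialTranspose (ketBra ψ)) ^ 2 := by
  refine ⟨pt_hermitian ψ, traceB_hermitian ψ, traceC_hermitian ψ, ?_⟩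
  have e1 : partialTranspose (ketBra ψ) =
      Pool.Agent.MP_ac15a8_mp.PT (fun (i : A) (z : B × C) (_ : Unit) => ψ (i, z.1, z.2)) := by
    ext x y
    rw [Pool.Agent.MP_ac15a8_mp.PT_apply]
    simp only [partialTranspose, ketBra, Matrix.of_apply, Finset.univ_unique,
      Finset.sum_singleton]
  have e2 : traceC (partialTranspose (ketBra ψ)) =
      Pool.Agent.MP_ac15a8_mp.PT (fun (i : A) (x : B) (y : C) => ψ (i, x, y)) := by
    ext x y
    rw [Pool.Agent.MP_ac15a8_mp.PT_apply]
    simp only [traceC, partialTranspose, ketBra, Matrix.of_apply]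
  have e3 : traceB (partialTranspose (ketBra ψ)) =
      Pool.Agent.MP_ac15a8_mp.PT (fun (i : A) (y : C) (x : B) => ψ (i, x, y)) := by
    ext x y
    rw [Pool.Agent.MP_ac15a8_mp.PT_apply]
    simp only [traceB, partialTranspose, ketBra, Matrix.of_apply]
  have h1 := pt_hermitian ψ
  have h2 := traceC_hermitian ψ
  have h3 := traceB_hermitian ψ
  rw [e2, e3, e1] at *
  rw [negativity_eq h1, negativity_eq h2, negativity_eq h3, add_comm]
  exact Pool.Agent.MP_ac15a8_mp.monogamy (fun (i : A) (x : B) (y : C) => ψ (i, x, y)) h1 h2 h3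

end Pool.Agent.Results.MP_ac15a8_mp.NegativityMonogamy
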